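import Pool.Agent.H28.LF.T1

open Finset

namespace Pool.Agent.H46.LF

open Pool.Agent.H28.LF

section cpl

variable {ι : Type*} [Fintype ι] [DecidableEq ι] {q : ℕ}

lemma cpl_S1 (F : ι → Fin q → ℝ) :
    ∑ v : ι → Fin q, ∏ i, F i (v i) = ∏ i, ∑ b, F i b := by
  rw [Finset.prod_univ_sum, Fintype.piFinset_univ]

lemma cpl_S2 (F : ι → Fin q → Fin q → ℝ) :
    ∑ v : ι → Fin q, ∑ v' : ι → Fin q, ∏ i, F i (v i) (v' i) =
      ∏ i, ∑ b, ∑ b', F i b b' := by
  rw [← cpl_S1 (fun i b => ∑ b', F i b b')]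
  refine Finset.sum_congr rfl fun v _ => ?_
  rw [cpl_S1 (fun i b' => F i (v i) b')]

/-- The coupling at one coordinate. -/
noncomputable def cplR (w : ι → Fin q → ℝ) (th : ℝ) (i : ι) (b b' : Fin q) : ℝ :=
  (if b = b' then (1 - th) * w i b else 0) + th * (w i b * w i b')

omit [Fintype ι] [DecidableEq ι] in
lemma cplR_nonneg (w : ι → Fin q → ℝ) (th : ℝ) (h0 : 0 ≤ th) (h1 : th ≤ 1)
    (hw : ∀ i b, 0 ≤ w i b) (i : ι) (b b' : Fin q) : 0 ≤ cplR w th i b b' := by
  unfold cplR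
  have := mul_nonneg h0 (mul_nonneg (hw i b) (hw i b'))
  have h2 := mul_nonneg (sub_nonneg.2 h1) (hw i b)
  split_ifs <;> linarith

omit [Fintype ι] [DecidableEq ι] in
lemma cplR_left (w : ι → Fin q → ℝ) (th : ℝ) (hs : ∀ i, ∑ b, w i b = 1) (i : ι) (b : Fin q) :
    ∑ b', cplR w th i b b' = w i b := by
  unfold cplR
  rw [Finset.sum_add_distrib, ← Finset.mul_sum, ← Finset.mul_sum, hs]
  simp
  ring

omit [Fintype ι] [DecidableEq ι] in
lemma cplR_right (w : ι → Fin q → ℝ) (th : ℝ) (hs : ∀ i, ∑ b, w i b = 1) (i : ι) (b' : Fin q) :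
    ∑ b, cplR w th i b b' = w i b' := by
  unfold cplR
  rw [Finset.sum_add_distrib, ← Finset.mul_sum, ← Finset.sum_mul, hs]
  simp
  ring

omit [Fintype ι] [DecidableEq ι] in
lemma cplR_ne (w : ι → Fin q → ℝ) (th : ℝ) (hs : ∀ i, ∑ b, w i b = 1) (i : ι) :
    ∑ b, ∑ b', cplR w th i b b' * (if b ≠ b' then (1 : ℝ) else 0) =
      th * (1 - ∑ b, w i b ^ 2) := by
  have h : ∀ b, ∑ b', cplR w th i b b' * (if b ≠ b' then (1 : ℝ) else 0) =
      th * w i b - th * w i b ^ 2 := by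
    intro b
    have h1 : ∀ b', cplR w th i b b' * (if b ≠ b' then (1 : ℝ) else 0) =
        th * w i b * w i b' - (if b = b' then th * w i b ^ 2 else 0) := by
      intro b'
      unfold cplR
      by_cases hb : b = b'
      · subst hb; simp; ring
      · simp [hb]; ring
    simp_rw [h1]
    rw [Finset.sum_sub_distrib, ← Finset.mul_sum, hs]
    simp
  simp_rw [h]
  rw [Finset.sum_sub_distrib, ← Finset.mul_sum, ← Finset.mul_sum, hs]
  ring

omit [Fintype ι] [DecidableEq ι] in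
lemma cplR_tot (w : ι → Fin q → ℝ) (th : ℝ) (hs : ∀ i, ∑ b, w i b = 1) (i : ι) :
    ∑ b, ∑ b', cplR w th i b b' = 1 := by
  simp_rw [cplR_left w th hs]
  exact hs i

lemma cpl_S3 (w : ι → Fin q → ℝ) (th : ℝ) (hs : ∀ i, ∑ b, w i b = 1) (S : Finset ι) :
    ∑ v : ι → Fin q, ∑ v' : ι → Fin q, (∏ i, cplR w th i (v i) (v' i)) *
      ∏ i ∈ S, (if v i ≠ v' i then (1 : ℝ) else 0) =
      ∏ i ∈ S, (th * (1 - ∑ b, w i b ^ 2)) := by
  have h1 : ∀ v v' : ι → Fin q, (∏ i, cplR w th i (v i) (v' i)) *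
      ∏ i ∈ S, (if v i ≠ v' i then (1 : ℝ) else 0) =
      ∏ i, (cplR w th i (v i) (v' i) *
        (if i ∈ S then (if v i ≠ v' i then (1 : ℝ) else 0) else 1)) := by
    intro v v'
    rw [Finset.prod_mul_distrib]
    congr 1
    rw [Finset.prod_ite_mem]
    simp
  simp_rw [h1]
  rw [cpl_S2 (fun i b b' => cplR w th i b b' *
    (if i ∈ S then (if b ≠ b' then (1 : ℝ) else 0) else 1))]
  have h2 : ∀ i, ∑ b, ∑ b', cplR w th i b b' *
      (if i ∈ S then (if b ≠ b' then (1 : ℝ) else 0) else 1) =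
      if i ∈ S then th * (1 - ∑ b, w i b ^ 2) else 1 := by
    intro i
    by_cases hi : i ∈ S
    · simp only [hi, if_true]
      exact cplR_ne w th hs i
    · simp only [hi, if_false, mul_one]
      exact cplR_tot w th hs i
  simp_rw [h2]
  rw [Finset.prod_ite_mem]
  simp

end cpl

theorem pf_CPL (h3 : T_PW3) : T_CPL := by
  classical
  intro q K L w th B _ hC hKL h0 h1 hw hs
  set p : Fin (L + K) → ℝ := fun i => th * (1 - ∑ b, w i b ^ 2) with hp
  set W : (Fin (L + K) → Fin q) → (Fin (L + K) → Fin q) → ℝ :=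
    fun v v' => ∏ i, cplR w th i (v i) (v' i) with hW
  have hW0 : ∀ v v', 0 ≤ W v v' := fun v v' =>
    Finset.prod_nonneg fun i _ => cplR_nonneg w th h0 h1 hw i _ _
  set x : (Fin (L + K) → Fin q) → (Fin (L + K) → Fin q) → Fin (L + K) → ℝ :=
    fun v v' i => if v i ≠ v' i then (1 : ℝ) else 0 with hx
  -- the moments
  have hm1 : ∀ i, ∑ v, ∑ v', W v v' * x v v' i = p i := by
    intro i
    have := cpl_S3 w th hs ({i} : Finset (Fin (L + K)))
    simpa [hW, hx, hp] using this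
  have hm2 : ∀ i j, i ≠ j → ∑ v, ∑ v', W v v' * (x v v' i * x v v' j) = p i * p j := by
    intro i j hij
    have := cpl_S3 w th hs ({i, j} : Finset (Fin (L + K)))
    rw [Finset.prod_pair hij] at this
    simp_rw [Finset.prod_pair hij] at this
    exact this
  -- the right-hand side
  have hr1 : ∑ v, ∑ v', W v v' * (if v ∈ B then (1 : ℝ) else 0) =
      ∑ v : Fin (L + K) → Fin q, if v ∈ B then ∏ i, w i (v i) else 0 := by
    refine Finset.sum_congr rfl fun v _ => ?_
    rw [← Finset.sum_mul]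
    have : ∑ v', W v v' = ∏ i, w i (v i) := by
      rw [hW]
      rw [cpl_S1 (fun i b' => cplR w th i (v i) b')]
      exact Finset.prod_congr rfl fun i _ => cplR_left w th hs i (v i)
    rw [this]
    split_ifs <;> simp
  have hr2 : ∑ v, ∑ v', W v v' * (if v' ∈ B then (1 : ℝ) else 0) =
      ∑ v : Fin (L + K) → Fin q, if v ∈ B then ∏ i, w i (v i) else 0 := by
    rw [Finset.sum_comm]
    refine Finset.sum_congr rfl fun v _ => ?_
    rw [← Finset.sum_mul]
    have : ∑ v', W v' v = ∏ i, w i (v i) := by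
      rw [hW]
      rw [cpl_S1 (fun i b' => cplR w th i b' (v i))]
      exact Finset.prod_congr rfl fun i _ => cplR_right w th hs i (v i)
    rw [this]
    split_ifs <;> simp
  -- the pointwise inequality
  have hpt : ∀ v v' : Fin (L + K) → Fin q,
      ∑ i : Fin (L + K), (if K ≤ (i : ℕ) ∧ (i : ℕ) < L then (1 : ℝ) else -1) * x v v' i -
      ∑ i : Fin (L + K), ∑ j : Fin (L + K), (if (K ≤ (i : ℕ) ∧ (i : ℕ) < L) ∧
        (K ≤ (j : ℕ) ∧ (j : ℕ) < L) ∧ i ≠ j then x v v' i * x v v' j else 0) ≤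
      (if v ∈ B then 1 else 0) + (if v' ∈ B then 1 else 0) := by
    intro v v'
    have h := h3 q K L v v' B hC
    set D : ℝ := ((univ.filter fun i : Fin (L + K) =>
      K ≤ (i : ℕ) ∧ (i : ℕ) < L ∧ v i ≠ v' i).card : ℝ) with hD
    set E : ℝ := ((univ.filter fun i : Fin (L + K) =>
      ¬ (K ≤ (i : ℕ) ∧ (i : ℕ) < L) ∧ v i ≠ v' i).card : ℝ) with hE
    have hDs : D = ∑ i : Fin (L + K), if K ≤ (i : ℕ) ∧ (i : ℕ) < L then x v v' i else 0 := by
      rw [hD, Finset.card_filter]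
      push_cast
      refine Finset.sum_congr rfl fun i _ => ?_
      simp only [hx]
      by_cases a : K ≤ (i : ℕ) <;> by_cases b : (i : ℕ) < L <;> by_cases c : v i = v' i <;>
        simp [a, b, c]
    have hEs : E = ∑ i : Fin (L + K), if K ≤ (i : ℕ) ∧ (i : ℕ) < L then 0 else x v v' i := by
      rw [hE, Finset.card_filter]
      push_cast
      refine Finset.sum_congr rfl fun i _ => ?_
      simp only [hx]
      by_cases a : K ≤ (i : ℕ) <;> by_cases b : (i : ℕ) < L <;> by_cases c : v i = v' i <;>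
        simp [a, b, c]
    have hlin : ∑ i : Fin (L + K), (if K ≤ (i : ℕ) ∧ (i : ℕ) < L then (1 : ℝ) else -1) *
        x v v' i = D - E := by
      rw [hDs, hEs, ← Finset.sum_sub_distrib]
      refine Finset.sum_congr rfl fun i _ => ?_
      split_ifs <;> ring
    have hquad : ∑ i : Fin (L + K), ∑ j : Fin (L + K), (if (K ≤ (i : ℕ) ∧ (i : ℕ) < L) ∧
        (K ≤ (j : ℕ) ∧ (j : ℕ) < L) ∧ i ≠ j then x v v' i * x v v' j else 0) = D * (D - 1) := by
      have hDD : D * D = ∑ i : Fin (L + K), ∑ j : Fin (L + K),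
          (if K ≤ (i : ℕ) ∧ (i : ℕ) < L then x v v' i else 0) *
          (if K ≤ (j : ℕ) ∧ (j : ℕ) < L then x v v' j else 0) := by
        rw [hDs, Finset.sum_mul_sum]
      have hD1 : D = ∑ i : Fin (L + K), ∑ j : Fin (L + K),
          (if i = j then (if K ≤ (i : ℕ) ∧ (i : ℕ) < L then x v v' i else 0) else 0) := by
        rw [hDs]
        refine Finset.sum_congr rfl fun i _ => ?_
        simp
      rw [mul_sub, mul_one, hDD]
      rw [hD1]
      rw [← Finset.sum_sub_distrib]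
      refine Finset.sum_congr rfl fun i _ => ?_
      rw [← Finset.sum_sub_distrib]
      refine Finset.sum_congr rfl fun j _ => ?_
      by_cases hij : i = j
      · subst hij
        simp only [ne_eq, not_true_eq_false, and_false, if_false, if_true]
        split_ifs with hi
        · simp only [hx]
          split_ifs <;> simp
        · simp
      · simp only [hij, ne_eq, not_false_eq_true, and_true, if_false, sub_zero]
        by_cases a : K ≤ (i : ℕ) ∧ (i : ℕ) < L <;> by_cases b : K ≤ (j : ℕ) ∧ (j : ℕ) < L <;>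
          simp [a, b]
    rw [hlin, hquad]
    have h' : D - E - D * (D - 1) = D - D * (D - 1) - E := by ring
    rw [h']
    convert h
  -- sum up
  have hsum := Finset.sum_le_sum fun v (_ : v ∈ (univ : Finset (Fin (L + K) → Fin q))) =>
    Finset.sum_le_sum fun v' (_ : v' ∈ (univ : Finset (Fin (L + K) → Fin q))) =>
      mul_le_mul_of_nonneg_left (hpt v v') (hW0 v v')
  have hR : ∑ v, ∑ v', W v v' * ((if v ∈ B then (1 : ℝ) else 0) + (if v' ∈ B then 1 else 0)) =
      2 * ∑ v : Fin (L + K) → Fin q, if v ∈ B then ∏ i, w i (v i) else 0 := by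
    simp_rw [mul_add, Finset.sum_add_distrib]
    rw [hr1, hr2]
    ring
  have hL : ∑ v, ∑ v', W v v' *
      (∑ i : Fin (L + K), (if K ≤ (i : ℕ) ∧ (i : ℕ) < L then (1 : ℝ) else -1) * x v v' i -
      ∑ i : Fin (L + K), ∑ j : Fin (L + K), (if (K ≤ (i : ℕ) ∧ (i : ℕ) < L) ∧
        (K ≤ (j : ℕ) ∧ (j : ℕ) < L) ∧ i ≠ j then x v v' i * x v v' j else 0)) =
      ∑ i : Fin (L + K), (if K ≤ (i : ℕ) ∧ (i : ℕ) < L then (1 : ℝ) else -1) * p i -
      ∑ i : Fin (L + K), ∑ j : Fin (L + K), (if (K ≤ (i : ℕ) ∧ (i : ℕ) < L) ∧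
        (K ≤ (j : ℕ) ∧ (j : ℕ) < L) ∧ i ≠ j then p i * p j else 0) := by
    have e1 : ∀ v v', W v v' *
      (∑ i : Fin (L + K), (if K ≤ (i : ℕ) ∧ (i : ℕ) < L then (1 : ℝ) else -1) * x v v' i -
      ∑ i : Fin (L + K), ∑ j : Fin (L + K), (if (K ≤ (i : ℕ) ∧ (i : ℕ) < L) ∧
        (K ≤ (j : ℕ) ∧ (j : ℕ) < L) ∧ i ≠ j then x v v' i * x v v' j else 0)) =
      ∑ i : Fin (L + K), (if K ≤ (i : ℕ) ∧ (i : ℕ) < L then (1 : ℝ) else -1) *
        (W v v' * x v v' i) -
      ∑ i : Fin (L + K), ∑ j : Fin (L + K), (if (K ≤ (i : ℕ) ∧ (i : ℕ) < L) ∧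
        (K ≤ (j : ℕ) ∧ (j : ℕ) < L) ∧ i ≠ j then W v v' * (x v v' i * x v v' j) else 0) := by
      intro v v'
      rw [mul_sub, Finset.mul_sum, Finset.mul_sum]
      congr 1
      · exact Finset.sum_congr rfl fun i _ => by ring
      · refine Finset.sum_congr rfl fun i _ => ?_
        rw [Finset.mul_sum]
        refine Finset.sum_congr rfl fun j _ => ?_
        split_ifs <;> simp
    simp_rw [e1, Finset.sum_sub_distrib]
    congr 1
    · have : ∀ v : Fin (L + K) → Fin q, ∑ v' : Fin (L + K) → Fin q, ∑ i : Fin (L + K),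
          (if K ≤ (i : ℕ) ∧ (i : ℕ) < L then (1 : ℝ) else -1) * (W v v' * x v v' i) =
          ∑ i : Fin (L + K), (if K ≤ (i : ℕ) ∧ (i : ℕ) < L then (1 : ℝ) else -1) *
            ∑ v', W v v' * x v v' i := by
        intro v
        rw [Finset.sum_comm]
        exact Finset.sum_congr rfl fun i _ => by rw [Finset.mul_sum]
      simp_rw [this]
      rw [Finset.sum_comm]
      refine Finset.sum_congr rfl fun i _ => ?_
      rw [← Finset.mul_sum, hm1]
    · have : ∀ v : Fin (L + K) → Fin q, ∑ v' : Fin (L + K) → Fin q, ∑ i : Fin (L + K),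
          ∑ j : Fin (L + K), (if (K ≤ (i : ℕ) ∧ (i : ℕ) < L) ∧
          (K ≤ (j : ℕ) ∧ (j : ℕ) < L) ∧ i ≠ j then W v v' * (x v v' i * x v v' j) else 0) =
          ∑ i : Fin (L + K), ∑ j : Fin (L + K), (if (K ≤ (i : ℕ) ∧ (i : ℕ) < L) ∧
          (K ≤ (j : ℕ) ∧ (j : ℕ) < L) ∧ i ≠ j then ∑ v', W v v' * (x v v' i * x v v' j)
            else 0) := by
        intro v
        rw [Finset.sum_comm]
        refine Finset.sum_congr rfl fun i _ => ?_
        rw [Finset.sum_comm]
        refine Finset.sum_congr rfl fun j _ => ?_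
        split_ifs <;> simp
      simp_rw [this]
      rw [Finset.sum_comm]
      refine Finset.sum_congr rfl fun i _ => ?_
      rw [Finset.sum_comm]
      refine Finset.sum_congr rfl fun j _ => ?_
      split_ifs with h
      · exact hm2 i j h.2.2
      · simp
  rw [hL, hR] at hsum
  exact hsum

end Pool.Agent.H46.LF
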